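import Mathlib

/-!
Deterministic and entanglement-assisted quantum two-party communication complexity.
-/

set_option autoImplicit false

open scoped Matrix ComplexConjugate BigOperators

namespace Pool.Agent.W974.QC

/-- Deterministic two-party protocols: binary trees whose inner nodes belong to Alice or to Bob, who
sends the bit `q x` (respectively `q y`) and thereby chooses the child; every leaf carries the
output. -/
inductive DTree (X Y : Type) : Type
  | leaf (b : Bool) : DTree X Y
  | alice (q : X → Bool) (l r : DTree X Y) : DTree X Y
  | bob (q : Y → Bool) (l r : DTree X Y) : DTree X Y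

/-- The output of a deterministic protocol on the input `(x, y)`. -/
def DTree.eval {X Y : Type} : DTree X Y → X → Y → Bool
  | DTree.leaf b, _, _ => b
  | DTree.alice q l r, x, y => if q x = true then r.eval x y else l.eval x y
  | DTree.bob q l r, x, y => if q y = true then r.eval x y else l.eval x y

/-- The depth of a deterministic protocol: the worst-case number of bits exchanged. -/
def DTree.depth {X Y : Type} : DTree X Y → ℕ
  | DTree.leaf _ => 0
  | DTree.alice _ l r => max l.depth r.depth + 1
  | DTree.bob _ l r => max l.depth r.depth + 1

/-- The deterministic communication complexity of `F`. -/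
noncomputable def detCC {X Y : Type} (F : X → Y → Bool) : ℕ :=
  sInf {d : ℕ | ∃ t : DTree X Y, t.depth = d ∧ ∀ x y, t.eval x y = F x y}

/-- `Reach X Y c α β Φ`: there is a quantum protocol with prior entanglement and exactly `c` qubits
of communication after which, on input `(x, y)`, the joint pure state of the two parties is
`∑ a b, Φ x y a b • |a⟩|b⟩`, where Alice holds a register with basis `α` and Bob one with basis `β`.
The protocol starts in an arbitrary shared unit vector which does not depend on the inputs; Alice may
apply to her register any isometry depending on `x`, Bob to his any isometry depending on `y` (so that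
fresh work qubits are available); and a party may hand over one qubit of her or his register to the
other party, which costs one unit. -/
inductive Reach (X Y : Type) : ℕ → (α β : Type) → (X → Y → α → β → ℂ) → Prop
  | init {α β : Type} [Fintype α] [Fintype β] (ψ : α → β → ℂ)
      (unit : ∑ a, ∑ b, ‖ψ a b‖ ^ 2 = 1) : Reach X Y 0 α β (fun _ _ => ψ)
  | localA {c : ℕ} {α β α' : Type} [Fintype α] [DecidableEq α] [Fintype α']
      {Φ : X → Y → α → β → ℂ} (U : X → Matrix α' α ℂ) (isometry : ∀ x, (U x)ᴴ * U x = 1) :
      Reach X Y c α β Φ → Reach X Y c α' β (fun x y a' b => ∑ a, U x a' a * Φ x y a b)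
  | localB {c : ℕ} {α β β' : Type} [Fintype β] [DecidableEq β] [Fintype β']
      {Φ : X → Y → α → β → ℂ} (V : Y → Matrix β' β ℂ) (isometry : ∀ y, (V y)ᴴ * V y = 1) :
      Reach X Y c α β Φ → Reach X Y c α β' (fun x y a b' => ∑ b, V y b' b * Φ x y a b)
  | sendA {c : ℕ} {α β : Type} {Φ : X → Y → α × Bool → β → ℂ} :
      Reach X Y c (α × Bool) β Φ →
        Reach X Y (c + 1) α (β × Bool) (fun x y a b => Φ x y (a, b.2) b.1)
  | sendB {c : ℕ} {α β : Type} {Φ : X → Y → α → β × Bool → ℂ} :
      Reach X Y c α (β × Bool) Φ →
        Reach X Y (c + 1) (α × Bool) β (fun x y a b => Φ x y a.1 (b, a.2))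

/-- `F` is computed with `c` qubits and error at most `1/3`: after a protocol with `c` qubits both
parties measure their registers in the computational basis and read off an output bit, and on every
input `(x, y)` both bits equal `F x y` with probability at least `2/3`. -/
def QComputes {X Y : Type} (F : X → Y → Bool) (c : ℕ) : Prop :=
  ∃ (α β : Type) (_ : Fintype α) (_ : Fintype β) (Φ : X → Y → α → β → ℂ),
    Reach X Y c α β Φ ∧ ∃ (outA : α → Bool) (outB : β → Bool), ∀ x y,
      (2 / 3 : ℝ) ≤ ∑ a, ∑ b, if outA a = F x y ∧ outB b = F x y then ‖Φ x y a b‖ ^ 2 else 0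

/-- `Q*_{1/3}(F)`: the entanglement-assisted bounded-error quantum communication complexity. -/
noncomputable def qStar {X Y : Type} (F : X → Y → Bool) : ℕ :=
  sInf {c : ℕ | QComputes F c}

/-- `F(x, y) = f(x ∧ y)`. -/
def andFn {n : ℕ} (f : (Fin n → Bool) → Bool) (x y : Fin n → Bool) : Bool :=
  f (fun i => x i && y i)

/-- The number of leading ones of `z`. -/
def lead {n : ℕ} (z : Fin n → Bool) : ℕ :=
  (Finset.univ.filter (fun i : Fin n => ∀ j, j ≤ i → z j = true)).card

/-- The parity of the number of leading ones. -/
def leadParity {n : ℕ} (z : Fin n → Bool) : Bool := decide (lead z % 2 = 1)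

end Pool.Agent.W974.QC
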