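import Pool.Agent.W974.QC.Sim

/-!
Comparison of integers by binary search with random hash functions.
-/

set_option autoImplicit false

open scoped BigOperators

namespace Pool.Agent.W974.QC

variable {X Y Ω : Type}

/-- Alice sends `k` bits. -/
lemma Pub.aliceMany {c : ℕ} {κ : Type} {u : X → Y → Ω → κ} (h : Pub X Y Ω c κ u) (k : ℕ)
    (m : X → κ → (Fin k → Bool)) :
    Pub X Y Ω (c + k) (κ × (Fin k → Bool)) (fun x y ω => (u x y ω, m x (u x y ω))) := by
  induction k with
  | zero =>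
    have h1 := h.map (fun a => (a, (fun i => i.elim0 : Fin 0 → Bool)))
    have e : (fun x y ω => (u x y ω, m x (u x y ω))) =
        (fun x y ω => (u x y ω, (fun i => i.elim0 : Fin 0 → Bool))) := by
      funext x y ω
      refine Prod.ext rfl ?_
      funext i
      exact i.elim0
    rw [e]
    exact h1
  | succ k ih =>
    have h1 := ih (fun x a => fun i => m x a i.castSucc)
    have h2 := h1.alice (fun x a => m x a.1 (Fin.last k))
    have h3 := h2.map (fun a => (a.1.1, (Fin.snoc a.1.2 a.2 : Fin (k + 1) → Bool)))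
    have e : (fun x y ω => (u x y ω, m x (u x y ω))) =
        (fun x y ω => (u x y ω, (Fin.snoc (fun i : Fin k => m x (u x y ω) i.castSucc)
          (m x (u x y ω) (Fin.last k)) : Fin (k + 1) → Bool))) := by
      funext x y ω
      refine Prod.ext rfl ?_
      funext i
      refine Fin.lastCases ?_ (fun j => ?_) i
      · simp
      · simp
    rw [e]
    exact h3

/-- One round of the search: the new lower end. -/
def stepLo {H : Type} [DecidableEq H] (M : ℕ) (h : ℕ → H) (a b w lo : ℕ) : ℕ :=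
  if h (a / 2 ^ (M - (lo + w))) = h (b / 2 ^ (M - (lo + w))) then lo + w else lo

/-- The lower end after `t` rounds, for the hash functions `h`. -/
def lows {H : Type} [DecidableEq H] (R M : ℕ) (h : ℕ → ℕ → H) (a b : ℕ) : ℕ → ℕ
  | 0 => 0
  | t + 1 => stepLo M (h t) a b (2 ^ (R - (t + 1))) (lows R M h a b t)

lemma lows_inv (R : ℕ) (a b : ℕ) (ha : a < 2 ^ (2 ^ R)) (hb : b < 2 ^ (2 ^ R)) (hab : a ≠ b) :
    ∀ t, t ≤ R → lows R (2 ^ R) (fun _ => (id : ℕ → ℕ)) a b t + 2 ^ (R - t) ≤ 2 ^ R ∧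
      a / 2 ^ (2 ^ R - lows R (2 ^ R) (fun _ => (id : ℕ → ℕ)) a b t) =
        b / 2 ^ (2 ^ R - lows R (2 ^ R) (fun _ => (id : ℕ → ℕ)) a b t) ∧
      a / 2 ^ (2 ^ R - (lows R (2 ^ R) (fun _ => (id : ℕ → ℕ)) a b t + 2 ^ (R - t))) ≠
        b / 2 ^ (2 ^ R - (lows R (2 ^ R) (fun _ => (id : ℕ → ℕ)) a b t + 2 ^ (R - t))) := by
  intro t
  induction t with
  | zero =>
    intro _
    refine ⟨by simp [lows], ?_, ?_⟩
    · simp only [lows, Nat.sub_zero]
      rw [Nat.div_eq_of_lt ha, Nat.div_eq_of_lt hb]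
    · simpa [lows] using hab
  | succ t ih =>
    intro ht
    obtain ⟨h1, h2, h3⟩ := ih (by omega)
    have e : 2 ^ (R - t) = 2 ^ (R - (t + 1)) + 2 ^ (R - (t + 1)) := by
      rw [show R - t = (R - (t + 1)) + 1 by omega, pow_succ]
      ring
    have hw : 0 < 2 ^ (R - (t + 1)) := by positivity
    generalize hL : lows R (2 ^ R) (fun _ => (id : ℕ → ℕ)) a b t = L at *
    simp only [lows, hL, stepLo, id]
    split_ifs with hc
    · rw [e] at h1
      refine ⟨by omega, hc, ?_⟩
      rw [show L + 2 ^ (R - (t + 1)) + 2 ^ (R - (t + 1)) = L + 2 ^ (R - t) by omega]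
      exact h3
    · rw [e] at h1
      exact ⟨by omega, h2, hc⟩

/-- If no hash function collides on the true path, the search follows the true path. -/
lemma lows_eq {H : Type} [DecidableEq H] (R M : ℕ) (h : ℕ → ℕ → H) (a b : ℕ) (T : ℕ)
    (hgood : ∀ t, t < T → ∀ p, p = lows R M (fun _ => (id : ℕ → ℕ)) a b t + 2 ^ (R - (t + 1)) →
      a / 2 ^ (M - p) ≠ b / 2 ^ (M - p) → h t (a / 2 ^ (M - p)) ≠ h t (b / 2 ^ (M - p))) :
    ∀ t, t ≤ T → lows R M h a b t = lows R M (fun _ => (id : ℕ → ℕ)) a b t := by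
  intro t
  induction t with
  | zero => intro _; rfl
  | succ t ih =>
    intro ht
    have h1 := ih (by omega)
    have h2 := hgood t (by omega) _ rfl
    simp only [lows, stepLo, id]
    rw [h1]
    by_cases h3 : a / 2 ^ (M - (lows R M (fun _ => (id : ℕ → ℕ)) a b t + 2 ^ (R - (t + 1)))) =
        b / 2 ^ (M - (lows R M (fun _ => (id : ℕ → ℕ)) a b t + 2 ^ (R - (t + 1))))
    · rw [if_pos (by rw [h3]), if_pos h3]
    · rw [if_neg (h2 h3), if_neg h3]

/-- Comparison of `a` and `b` from one bit of `a` at the place found. -/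
lemma lt_iff_bit (R : ℕ) (a b : ℕ) (ha : a < 2 ^ (2 ^ R)) (hb : b < 2 ^ (2 ^ R)) (hab : a ≠ b)
    (p : ℕ) (hp : p = lows R (2 ^ R) (fun _ => (id : ℕ → ℕ)) a b R + 1) :
    a < b ↔ (a / 2 ^ (2 ^ R - p)) % 2 = 0 := by
  obtain ⟨h1, h2, h3⟩ := lows_inv R a b ha hb hab R le_rfl
  rw [Nat.sub_self, pow_zero, ← hp] at h1 h3
  generalize hL : lows R (2 ^ R) (fun _ => (id : ℕ → ℕ)) a b R = L at *
  have e : 2 ^ (2 ^ R - L) = 2 ^ (2 ^ R - p) * 2 := by
    rw [show 2 ^ R - L = (2 ^ R - p) + 1 by omega, pow_succ]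
  rw [e, ← Nat.div_div_eq_div_mul, ← Nat.div_div_eq_div_mul] at h2
  generalize 2 ^ (2 ^ R - p) = m at *
  have hmono : ∀ c d : ℕ, c / m < d / m → c < d := by
    intro c d hcd
    by_contra hh
    exact absurd (Nat.div_le_div_right (c := m) (not_lt.1 hh)) (not_le.2 hcd)
  constructor
  · intro hlt
    have h4 : a / m ≤ b / m := Nat.div_le_div_right hlt.le
    omega
  · intro h4
    apply hmono
    omega

/-- The final answer from the common knowledge. -/
def ansOf (bit pa pb : Bool) : Bool := if bit = true then pb else pa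

end Pool.Agent.W974.QC
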