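import Pool.Agent.W974.QC.GT

/-!
The function `parity of the number of leading ones` of `x ∧ y`.
-/

set_option autoImplicit false

open scoped BigOperators

namespace Pool.Agent.W974.QC

/-! ### Counting hash collisions -/

lemma card_collision {Z H : Type} [Fintype Z] [DecidableEq Z] [Fintype H] [DecidableEq H]
    (u v : Z) (huv : u ≠ v) :
    (Finset.univ.filter (fun g : Z → H => g u = g v)).card * Fintype.card H =
      Fintype.card (Z → H) := by
  rw [← Fintype.card_subtype, ← Fintype.card_prod]
  apply Fintype.card_congr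
  refine
    { toFun := fun p => Function.update p.1.1 u p.2
      invFun := fun g => (⟨Function.update g u (g v), by
        simp [Function.update_of_ne huv.symm]⟩, g u)
      left_inv := ?_
      right_inv := ?_ }
  · rintro ⟨⟨g, hg⟩, h⟩
    simp only [Prod.mk.injEq, Subtype.mk.injEq]
    refine ⟨?_, by simp⟩
    rw [Function.update_idem, Function.update_of_ne huv.symm, ← hg, Function.update_eq_self]
  · intro g
    simp

/-- The shared random string. -/
abbrev Om (R k : ℕ) : Type := Fin R × Fin (2 ^ (2 ^ R)) → (Fin k → Bool)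

/-- The hash functions. -/
def hOf {R k : ℕ} (ω : Om R k) (t v : ℕ) : Fin k → Bool :=
  if h : t < R ∧ v < 2 ^ (2 ^ R) then ω (⟨t, h.1⟩, ⟨v, h.2⟩) else fun _ => false

lemma bad_count (R k : ℕ) (a b : ℕ) (ha : a < 2 ^ (2 ^ R)) (hb : b < 2 ^ (2 ^ R))
    (hk : 3 * R ≤ 2 ^ k) :
    2 * Fintype.card (Om R k) ≤ 3 * (Finset.univ.filter (fun ω : Om R k =>
      lows R (2 ^ R) (hOf ω) a b R = lows R (2 ^ R) (fun _ => (id : ℕ → ℕ)) a b R)).card := by
  classical
  set P : ℕ → ℕ := fun t => 2 ^ R - (lows R (2 ^ R) (fun _ => (id : ℕ → ℕ)) a b t +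
    2 ^ (R - (t + 1))) with hP
  have ha' : ∀ t, a / 2 ^ P t < 2 ^ (2 ^ R) := fun t => lt_of_le_of_lt (Nat.div_le_self _ _) ha
  have hb' : ∀ t, b / 2 ^ P t < 2 ^ (2 ^ R) := fun t => lt_of_le_of_lt (Nat.div_le_self _ _) hb
  set bad : Fin R → Finset (Om R k) := fun t => Finset.univ.filter (fun ω : Om R k =>
    a / 2 ^ P t ≠ b / 2 ^ P t ∧ hOf ω t (a / 2 ^ P t) = hOf ω t (b / 2 ^ P t)) with hbad
  have h1 : ∀ t, (bad t).card * 2 ^ k ≤ Fintype.card (Om R k) := by
    intro t
    by_cases hne : a / 2 ^ P t = b / 2 ^ P t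
    · have : bad t = ∅ := by
        rw [hbad]
        simp [hne]
      rw [this]
      simp
    · have h2 := card_collision (Z := Fin R × Fin (2 ^ (2 ^ R))) (H := Fin k → Bool)
        (t, ⟨_, ha' t⟩) (t, ⟨_, hb' t⟩) (by
          intro h
          simp only [Prod.mk.injEq, Fin.mk.injEq, true_and] at h
          exact hne h)
      rw [Fintype.card_fun, Fintype.card_bool, Fintype.card_fin] at h2
      rw [← h2]
      apply Nat.mul_le_mul_right
      apply Finset.card_le_card
      intro ω hω
      rw [hbad] at hω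
      simp only [Finset.mem_filter, Finset.mem_univ, true_and] at hω ⊢
      have h3 := hω.2
      unfold hOf at h3
      rw [dif_pos ⟨t.2, ha' t⟩, dif_pos ⟨t.2, hb' t⟩] at h3
      exact h3
  have h2 : (Finset.univ : Finset (Om R k)) ⊆ (Finset.univ.filter (fun ω : Om R k =>
      lows R (2 ^ R) (hOf ω) a b R = lows R (2 ^ R) (fun _ => (id : ℕ → ℕ)) a b R)) ∪
      Finset.univ.biUnion bad := by
    intro ω _
    rw [Finset.mem_union]
    by_cases hb1 : ∃ t : Fin R, ω ∈ bad t
    · right
      obtain ⟨t, ht⟩ := hb1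
      exact Finset.mem_biUnion.2 ⟨t, Finset.mem_univ _, ht⟩
    · left
      rw [Finset.mem_filter]
      refine ⟨Finset.mem_univ _, ?_⟩
      apply lows_eq R (2 ^ R) (hOf ω) a b R _ R le_rfl
      intro t ht p hp hne heq
      apply hb1
      refine ⟨⟨t, ht⟩, ?_⟩
      rw [hbad]
      simp only [Finset.mem_filter, Finset.mem_univ, true_and, hP]
      rw [hp] at hne heq
      exact ⟨hne, heq⟩
  have h3 := Finset.card_le_card h2
  rw [Finset.card_univ] at h3
  have h4 := h3.trans (Finset.card_union_le _ _)
  have h5 : (Finset.univ.biUnion bad).card ≤ ∑ t : Fin R, (bad t).card := Finset.card_biUnion_le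
  have h6 : (∑ t : Fin R, (bad t).card) * 2 ^ k ≤ R * Fintype.card (Om R k) := by
    rw [Finset.sum_mul]
    refine (Finset.sum_le_sum (fun t _ => h1 t)).trans ?_
    simp
  have h7 : 3 * (∑ t : Fin R, (bad t).card) ≤ Fintype.card (Om R k) := by
    by_contra hcon
    push Not at hcon
    have hpos : 0 < 2 ^ k := by positivity
    rcases Nat.eq_zero_or_pos R with hR | hR
    · subst hR
      have : ∑ t : Fin 0, (bad t).card = 0 := by simp
      rw [this] at hcon
      simp at hcon
    · have h8 : R * Fintype.card (Om R k) < R * (3 * (∑ t : Fin R, (bad t).card)) :=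
        Nat.mul_lt_mul_of_pos_left hcon hR
      have h9 : R * (3 * (∑ t : Fin R, (bad t).card)) = (3 * R) * (∑ t : Fin R, (bad t).card) := by
        ring
      have h10 : (3 * R) * (∑ t : Fin R, (bad t).card) ≤ 2 ^ k * (∑ t : Fin R, (bad t).card) :=
        Nat.mul_le_mul_right _ hk
      have h11 : 2 ^ k * (∑ t : Fin R, (bad t).card) = (∑ t : Fin R, (bad t).card) * 2 ^ k := by
        ring
      omega
  omega

/-! ### The protocol -/

/-- A public-coin protocol with `R (k + 1) + 3` bits for comparison-like problems. -/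
lemma pub_lows {X Y : Type} (R k : ℕ) (A : X → ℕ) (B : Y → ℕ) (t : ℕ) :
    Pub X Y (Om R k) (t * (k + 1)) (Om R k × ℕ)
      (fun x y ω => (ω, lows R (2 ^ R) (hOf ω) (A x) (B y) t)) := by
  induction t with
  | zero =>
    have h := (Pub.start (X := X) (Y := Y) (Ω := Om R k)).map (fun ω => (ω, 0))
    rw [zero_mul]
    exact h
  | succ t ih =>
    have h1 := ih.aliceMany k (fun x κ => hOf κ.1 t (A x / 2 ^ (2 ^ R - (κ.2 + 2 ^ (R - (t + 1))))))
    have h2 := h1.bob (fun y κ => decide (κ.2 =
      hOf κ.1.1 t (B y / 2 ^ (2 ^ R - (κ.1.2 + 2 ^ (R - (t + 1)))))))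
    have h3 := h2.map (fun κ => (κ.1.1.1, if κ.2 = true then κ.1.1.2 + 2 ^ (R - (t + 1)) else
      κ.1.1.2))
    rw [show (t + 1) * (k + 1) = t * (k + 1) + k + 1 by ring]
    convert h3 using 4
    simp only [lows, stepLo, decide_eq_true_eq]

/-- Computing `G (min i j)`-like functions. -/
theorem pub_min {X Y : Type} (R k : ℕ) (i : X → ℕ) (j : Y → ℕ) (g : ℕ → Bool)
    (F : X → Y → Bool) (hF : ∀ x y, F x y = g (min (i x) (j y)))
    (hi : ∀ x, 2 * i x < 2 ^ (2 ^ R)) (hj : ∀ y, 2 * j y + 1 < 2 ^ (2 ^ R))
    (hk : 3 * R ≤ 2 ^ k) : QComputes F (R * (k + 1) + 3) := by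
  have h1 := pub_lows (X := X) (Y := Y) R k (fun x => 2 * i x) (fun y => 2 * j y + 1) R
  have h2 := h1.alice (fun x κ => decide ((2 * i x) / 2 ^ (2 ^ R - (κ.2 + 1)) % 2 = 1))
  have h3 := h2.alice (fun x _ => g (i x))
  have h4 := h3.bob (fun y _ => g (j y))
  refine QComputes_of_Pub h4 F (fun κ => ansOf κ.1.1.2 κ.1.2 κ.2) ?_
  intro x y
  have h5 := bad_count R k (2 * i x) (2 * j y + 1) (hi x) (hj y) hk
  have h6 : (Finset.univ.filter (fun ω : Om R k =>
      lows R (2 ^ R) (hOf ω) (2 * i x) (2 * j y + 1) R =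
        lows R (2 ^ R) (fun _ => (id : ℕ → ℕ)) (2 * i x) (2 * j y + 1) R)).card ≤
      (Finset.univ.filter (fun ω : Om R k => (ansOf
        (decide ((2 * i x) / 2 ^ (2 ^ R - (lows R (2 ^ R) (hOf ω) (2 * i x) (2 * j y + 1) R + 1))
          % 2 = 1)) (g (i x)) (g (j y)) = F x y))).card := by
    apply Finset.card_le_card
    intro ω hω
    simp only [Finset.mem_filter, Finset.mem_univ, true_and] at hω ⊢
    rw [hω, hF]
    have h7 := lt_iff_bit R (2 * i x) (2 * j y + 1) (hi x) (hj y) (by omega) _ rfl
    unfold ansOf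
    by_cases h8 : 2 * i x < 2 * j y + 1
    · have h9 := h7.1 h8
      rw [h9]
      simp only [zero_ne_one, decide_false, Bool.false_eq_true, if_false]
      rw [min_eq_left (by omega)]
    · have h9 : (2 * i x) / 2 ^ (2 ^ R - (lows R (2 ^ R) (fun _ => (id : ℕ → ℕ)) (2 * i x)
          (2 * j y + 1) R + 1)) % 2 = 1 := by
        have : ¬ (2 * i x) / 2 ^ (2 ^ R - (lows R (2 ^ R) (fun _ => (id : ℕ → ℕ)) (2 * i x)
          (2 * j y + 1) R + 1)) % 2 = 0 := fun h => h8 (h7.2 h)
        omega
      rw [h9]
      simp only [decide_true, if_true]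
      rw [min_eq_right (by omega)]
  have h7 : (2 : ℝ) * Fintype.card (Om R k) ≤ 3 * ((Finset.univ.filter (fun ω : Om R k => (ansOf
        (decide ((2 * i x) / 2 ^ (2 ^ R - (lows R (2 ^ R) (hOf ω) (2 * i x) (2 * j y + 1) R + 1))
          % 2 = 1)) (g (i x)) (g (j y)) = F x y))).card : ℝ) := by
    have := h5.trans (Nat.mul_le_mul_left 3 h6)
    exact_mod_cast this
  linarith

/-! ### Fooling sets -/

/-- Fooling set bound for protocol trees. -/
lemma DTree.fooling {X Y : Type} (t : DTree X Y) {ι : Type} [DecidableEq ι] (c : Bool)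
    (x : ι → X) (y : ι → Y) :
    ∀ I : Finset ι, (∀ i ∈ I, t.eval (x i) (y i) = c) →
      (∀ i ∈ I, ∀ j ∈ I, i ≠ j → t.eval (x i) (y j) ≠ c ∨ t.eval (x j) (y i) ≠ c) →
      I.card ≤ 2 ^ t.depth := by
  induction t with
  | leaf b =>
    intro I h1 h2
    simp only [DTree.depth, pow_zero]
    rw [Finset.card_le_one]
    intro i hi j hj
    by_contra hne
    have h3 := h1 i hi
    have h4 := h2 i hi j hj hne
    simp only [DTree.eval] at h3 h4
    tauto
  | alice q l r ihl ihr =>
    intro I h1 h2
    have e := Finset.card_filter_add_card_filter_not (s := I) (fun i => q (x i) = true)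
    have hr := ihr (I.filter (fun i => q (x i) = true)) (by
      intro i hi
      rw [Finset.mem_filter] at hi
      have := h1 i hi.1
      simpa only [DTree.eval, hi.2, if_true] using this) (by
      intro i hi j hj hne
      rw [Finset.mem_filter] at hi hj
      have := h2 i hi.1 j hj.1 hne
      simpa only [DTree.eval, hi.2, hj.2, if_true] using this)
    have hl := ihl (I.filter (fun i => ¬ q (x i) = true)) (by
      intro i hi
      rw [Finset.mem_filter] at hi
      have := h1 i hi.1
      simpa only [DTree.eval, hi.2, if_false, Bool.false_eq_true] using this) (by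
      intro i hi j hj hne
      rw [Finset.mem_filter] at hi hj
      have := h2 i hi.1 j hj.1 hne
      simpa only [DTree.eval, hi.2, hj.2, if_false, Bool.false_eq_true] using this)
    have h3 : 2 ^ l.depth ≤ 2 ^ (max l.depth r.depth) :=
      Nat.pow_le_pow_right (by norm_num) (le_max_left _ _)
    have h4 : 2 ^ r.depth ≤ 2 ^ (max l.depth r.depth) :=
      Nat.pow_le_pow_right (by norm_num) (le_max_right _ _)
    simp only [DTree.depth, pow_succ]
    omega
  | bob q l r ihl ihr =>
    intro I h1 h2
    have e := Finset.card_filter_add_card_filter_not (s := I) (fun i => q (y i) = true)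
    have hr := ihr (I.filter (fun i => q (y i) = true)) (by
      intro i hi
      rw [Finset.mem_filter] at hi
      have := h1 i hi.1
      simpa only [DTree.eval, hi.2, if_true] using this) (by
      intro i hi j hj hne
      rw [Finset.mem_filter] at hi hj
      have := h2 i hi.1 j hj.1 hne
      simpa only [DTree.eval, hi.2, hj.2, if_true] using this)
    have hl := ihl (I.filter (fun i => ¬ q (y i) = true)) (by
      intro i hi
      rw [Finset.mem_filter] at hi
      have := h1 i hi.1
      simpa only [DTree.eval, hi.2, if_false, Bool.false_eq_true] using this) (by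
      intro i hi j hj hne
      rw [Finset.mem_filter] at hi hj
      have := h2 i hi.1 j hj.1 hne
      simpa only [DTree.eval, hi.2, hj.2, if_false, Bool.false_eq_true] using this)
    have h3 : 2 ^ l.depth ≤ 2 ^ (max l.depth r.depth) :=
      Nat.pow_le_pow_right (by norm_num) (le_max_left _ _)
    have h4 : 2 ^ r.depth ≤ 2 ^ (max l.depth r.depth) :=
      Nat.pow_le_pow_right (by norm_num) (le_max_right _ _)
    simp only [DTree.depth, pow_succ]
    omega

/-- Every function on bit strings has a protocol tree. -/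
lemma exists_tree {X Y : Type} (n : ℕ) :
    ∀ (G : (Fin n → Bool) → Y → Bool) (e : X → (Fin n → Bool)),
      ∃ t : DTree X Y, ∀ x y, t.eval x y = G (e x) y := by
  induction n with
  | zero =>
    intro G e
    refine ⟨DTree.bob (fun y => G (fun i => i.elim0) y) (DTree.leaf false) (DTree.leaf true), ?_⟩
    intro x y
    have : e x = fun i => i.elim0 := by
      funext i
      exact i.elim0
    rw [this]
    simp only [DTree.eval]
    by_cases hG : G (fun i => i.elim0) y = true
    · rw [if_pos hG, hG]
    · rw [if_neg hG]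
      exact ((Bool.not_eq_true _).mp hG).symm
  | succ n ih =>
    intro G e
    obtain ⟨t0, h0⟩ := ih (fun z y => G (Fin.cons false z) y) (fun x => Fin.tail (e x))
    obtain ⟨t1, h1⟩ := ih (fun z y => G (Fin.cons true z) y) (fun x => Fin.tail (e x))
    refine ⟨DTree.alice (fun x => e x 0) t0 t1, ?_⟩
    intro x y
    simp only [DTree.eval, h0, h1]
    rcases h : e x 0 with _ | _
    · simp only [Bool.false_eq_true, if_false]
      rw [← h, Fin.cons_self_tail]
    · simp only [if_true]
      rw [← h, Fin.cons_self_tail]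

/-- A fooling set bounds the deterministic communication complexity. -/
lemma card_le_detCC {n : ℕ} {Y : Type} (F : (Fin n → Bool) → Y → Bool) {ι : Type}
    [DecidableEq ι] (c : Bool) (x : ι → (Fin n → Bool)) (y : ι → Y) (I : Finset ι)
    (h1 : ∀ i ∈ I, F (x i) (y i) = c)
    (h2 : ∀ i ∈ I, ∀ j ∈ I, i ≠ j → F (x i) (y j) ≠ c ∨ F (x j) (y i) ≠ c) :
    I.card ≤ 2 ^ detCC F := by
  have hne : {d : ℕ | ∃ t : DTree (Fin n → Bool) Y, t.depth = d ∧
      ∀ x y, t.eval x y = F x y}.Nonempty := by
    obtain ⟨t, ht⟩ := exists_tree (X := Fin n → Bool) n F id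
    exact ⟨t.depth, t, rfl, ht⟩
  obtain ⟨t, ht1, ht2⟩ := Nat.sInf_mem hne
  unfold detCC
  rw [← ht1]
  apply t.fooling c x y I
  · intro i hi
    rw [ht2]
    exact h1 i hi
  · intro i hi j hj hne
    rw [ht2, ht2]
    exact h2 i hi j hj hne

/-! ### The function -/

lemma lead_le {n : ℕ} (z : Fin n → Bool) : lead z ≤ n := by
  unfold lead
  exact (Finset.card_le_univ _).trans (by simp)

lemma lead_and {n : ℕ} (x y : Fin n → Bool) :
    lead (fun i => x i && y i) = min (lead x) (lead y) := by
  unfold lead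
  set A := Finset.univ.filter (fun i : Fin n => ∀ j, j ≤ i → x j = true) with hA
  set B := Finset.univ.filter (fun i : Fin n => ∀ j, j ≤ i → y j = true) with hB
  have e : Finset.univ.filter (fun i : Fin n => ∀ j, j ≤ i → (x j && y j) = true) = A ∩ B := by
    ext i
    simp only [hA, hB, Finset.mem_filter, Finset.mem_univ, true_and, Finset.mem_inter,
      Bool.and_eq_true]
    exact ⟨fun h => ⟨fun j hj => (h j hj).1, fun j hj => (h j hj).2⟩,
      fun h j hj => ⟨h.1 j hj, h.2 j hj⟩⟩
  rw [e]
  have hdA : ∀ i ∈ A, ∀ j, j ≤ i → j ∈ A := by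
    intro i hi j hj
    simp only [hA, Finset.mem_filter, Finset.mem_univ, true_and] at hi ⊢
    exact fun k hk => hi k (hk.trans hj)
  have hdB : ∀ i ∈ B, ∀ j, j ≤ i → j ∈ B := by
    intro i hi j hj
    simp only [hB, Finset.mem_filter, Finset.mem_univ, true_and] at hi ⊢
    exact fun k hk => hi k (hk.trans hj)
  have hsub : A ⊆ B ∨ B ⊆ A := by
    by_contra hcon
    push Not at hcon
    obtain ⟨hc1, hc2⟩ := hcon
    obtain ⟨i, hi, hi'⟩ := Finset.not_subset.1 hc1
    obtain ⟨j, hj, hj'⟩ := Finset.not_subset.1 hc2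
    rcases le_total i j with h | h
    · exact hi' (hdB j hj i h)
    · exact hj' (hdA i hi j h)
  rcases hsub with h | h
  · rw [Finset.inter_eq_left.2 h, min_eq_left (Finset.card_le_card h)]
  · rw [Finset.inter_eq_right.2 h, min_eq_right (Finset.card_le_card h)]

/-- The string `1^l 0^(n-l)`. -/
def ones (n l : ℕ) : Fin n → Bool := fun i => decide (i.1 < l)

lemma lead_ones (n l : ℕ) (hl : l ≤ n) : lead (ones n l) = l := by
  unfold lead ones
  have : (Finset.univ.filter (fun i : Fin n => ∀ j : Fin n, j ≤ i → decide (j.1 < l) = true)) =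
      Finset.univ.filter (fun i : Fin n => i.1 < l) := by
    ext i
    simp only [Finset.mem_filter, Finset.mem_univ, true_and, decide_eq_true_eq]
    exact ⟨fun h => h i le_rfl, fun h j hj => lt_of_le_of_lt hj h⟩
  rw [this, Fin.card_filter_val_lt]
  exact min_eq_right hl

lemma andFn_leadParity {n : ℕ} (x y : Fin n → Bool) :
    andFn (leadParity (n := n)) x y = decide (min (lead x) (lead y) % 2 = 1) := by
  unfold andFn leadParity
  rw [lead_and]

/-- Deterministic lower bound. -/
theorem detCC_ge (n : ℕ) : n / 2 ≤ 2 ^ detCC (andFn (leadParity (n := n))) := by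
  have h := card_le_detCC (andFn (leadParity (n := n))) false
    (fun k : ℕ => ones n (2 * k)) (fun k : ℕ => ones n (2 * k + 1)) (Finset.range (n / 2)) (by
      intro i hi
      rw [Finset.mem_range] at hi
      rw [andFn_leadParity, lead_ones _ _ (by omega), lead_ones _ _ (by omega)]
      rw [min_eq_left (by omega)]
      simp) (by
      intro i hi j hj hne
      rw [Finset.mem_range] at hi hj
      rw [andFn_leadParity, andFn_leadParity, lead_ones _ _ (by omega), lead_ones _ _ (by omega),
        lead_ones _ _ (by omega), lead_ones _ _ (by omega)]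
      rcases lt_or_gt_of_ne hne with h | h
      · right
        rw [min_eq_right (by omega)]
        have : (2 * i + 1) % 2 = 1 := by omega
        rw [this]
        simp
      · left
        rw [min_eq_right (by omega)]
        have : (2 * j + 1) % 2 = 1 := by omega
        rw [this]
        simp)
  rwa [Finset.card_range] at h

/-- Quantum upper bound. -/
theorem qStar_le (n R k : ℕ) (hn : 2 * n + 1 < 2 ^ (2 ^ R)) (hk : 3 * R ≤ 2 ^ k) :
    qStar (andFn (leadParity (n := n))) ≤ R * (k + 1) + 3 := by
  apply Nat.sInf_le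
  apply pub_min R k lead lead (fun l => decide (l % 2 = 1)) _ (fun x y => andFn_leadParity x y) _ _ hk
  · intro x
    have := lead_le x
    omega
  · intro y
    have := lead_le y
    omega

end Pool.Agent.W974.QC
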