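import Pool.Agent.W974.QC.Defs

/-!
Public-coin classical protocols with a fixed schedule are simulated by quantum protocols with prior
entanglement.
-/

set_option autoImplicit false

open scoped Matrix ComplexConjugate BigOperators

namespace Pool.Agent.W974.QC

/-- Common knowledge `u` of the two parties after `c` bits of a public-coin protocol with a fixed
schedule. -/
inductive Pub (X Y Ω : Type) : ℕ → (κ : Type) → (X → Y → Ω → κ) → Prop
  | start : Pub X Y Ω 0 Ω (fun _ _ ω => ω)
  | alice {c : ℕ} {κ : Type} {u : X → Y → Ω → κ} (m : X → κ → Bool) :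
      Pub X Y Ω c κ u → Pub X Y Ω (c + 1) (κ × Bool) (fun x y ω => (u x y ω, m x (u x y ω)))
  | bob {c : ℕ} {κ : Type} {u : X → Y → Ω → κ} (m : Y → κ → Bool) :
      Pub X Y Ω c κ u → Pub X Y Ω (c + 1) (κ × Bool) (fun x y ω => (u x y ω, m y (u x y ω)))
  | map {c : ℕ} {κ κ' : Type} {u : X → Y → Ω → κ} (g : κ → κ') :
      Pub X Y Ω c κ u → Pub X Y Ω c κ' (fun x y ω => g (u x y ω))

variable {X Y Ω : Type}

/-- The amplitude of the uniform superposition over `Ω` of basis states. -/
noncomputable def amp [Fintype Ω] {α β : Type} [DecidableEq α] [DecidableEq β]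
    (SA : X → Y → Ω → α) (SB : X → Y → Ω → β) (x : X) (y : Y) (a : α) (b : β) : ℂ :=
  ∑ ω, if SA x y ω = a ∧ SB x y ω = b then ((Real.sqrt (Fintype.card Ω))⁻¹ : ℂ) else 0

/-- Matrix of an injective function. -/
def mat {α α' : Type} [DecidableEq α'] (g : α → α') : Matrix α' α ℂ :=
  fun a' a => if g a = a' then 1 else 0

lemma mat_isometry {α α' : Type} [DecidableEq α'] [DecidableEq α] [Fintype α'] (g : α → α')
    (hg : Function.Injective g) : (mat g)ᴴ * mat g = 1 := by
  ext a b
  rw [Matrix.mul_apply, Matrix.one_apply]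
  simp only [Matrix.conjTranspose_apply, mat]
  rw [Finset.sum_eq_single (g a)]
  · by_cases h : a = b
    · subst h; simp
    · have : g b ≠ g a := fun h' => h (hg h').symm
      simp [h, this]
  · intro c _ hc
    simp [Ne.symm hc]
  · intro h; exact absurd (Finset.mem_univ _) h

/-- The classical states that can be reached: the memory of Alice and the memory of Bob as functions
of the inputs and of the shared random string. -/
def CR (X Y Ω : Type) [Fintype Ω] (c : ℕ) (α β : Type) [DecidableEq α] [DecidableEq β]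
    (SA : X → Y → Ω → α) (SB : X → Y → Ω → β) : Prop :=
  Reach X Y c α β (amp SA SB)

lemma CR.mapA [Fintype Ω] {c : ℕ} {α β α' : Type} [DecidableEq α] [DecidableEq β] [DecidableEq α']
    [Fintype α] [Fintype α'] {SA : X → Y → Ω → α} {SB : X → Y → Ω → β} (h : CR X Y Ω c α β SA SB)
    (g : X → α → α') (hg : ∀ x, Function.Injective (g x)) :
    CR X Y Ω c α' β (fun x y ω => g x (SA x y ω)) SB := by
  have h1 := Reach.localA (fun x => mat (g x)) (fun x => mat_isometry (g x) (hg x)) h
  unfold CR
  convert h1 using 1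
  funext x y a' b
  unfold amp
  simp only [Finset.mul_sum]
  rw [Finset.sum_comm]
  apply Finset.sum_congr rfl
  intro ω _
  rw [Finset.sum_eq_single (SA x y ω)]
  · simp only [mat]
    by_cases h2 : g x (SA x y ω) = a' <;> by_cases h3 : SB x y ω = b <;> simp [h2, h3]
  · intro a _ ha
    rw [if_neg (fun hh => ha hh.1.symm), mul_zero]
  · intro h; exact absurd (Finset.mem_univ _) h

lemma CR.mapB [Fintype Ω] {c : ℕ} {α β β' : Type} [DecidableEq α] [DecidableEq β] [DecidableEq β']
    [Fintype β] [Fintype β'] {SA : X → Y → Ω → α} {SB : X → Y → Ω → β} (h : CR X Y Ω c α β SA SB)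
    (g : Y → β → β') (hg : ∀ y, Function.Injective (g y)) :
    CR X Y Ω c α β' SA (fun x y ω => g y (SB x y ω)) := by
  have h1 := Reach.localB (fun y => mat (g y)) (fun y => mat_isometry (g y) (hg y)) h
  unfold CR
  convert h1 using 1
  funext x y a b'
  unfold amp
  simp only [Finset.mul_sum]
  rw [Finset.sum_comm]
  apply Finset.sum_congr rfl
  intro ω _
  rw [Finset.sum_eq_single (SB x y ω)]
  · simp only [mat]
    by_cases h2 : g y (SB x y ω) = b' <;> by_cases h3 : SA x y ω = a <;> simp [h2, h3]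
  · intro a _ ha
    rw [if_neg (fun hh => ha hh.2.symm), mul_zero]
  · intro h; exact absurd (Finset.mem_univ _) h

lemma CR.sendA [Fintype Ω] {c : ℕ} {α β : Type} [DecidableEq α] [DecidableEq β]
    {SA : X → Y → Ω → α × Bool} {SB : X → Y → Ω → β} (h : CR X Y Ω c (α × Bool) β SA SB) :
    CR X Y Ω (c + 1) α (β × Bool) (fun x y ω => (SA x y ω).1)
      (fun x y ω => (SB x y ω, (SA x y ω).2)) := by
  have h1 := Reach.sendA h
  unfold CR
  convert h1 using 1
  funext x y a b
  unfold amp
  apply Finset.sum_congr rfl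
  intro ω _
  congr 1
  apply propext
  simp only [Prod.ext_iff]
  tauto

lemma CR.sendB [Fintype Ω] {c : ℕ} {α β : Type} [DecidableEq α] [DecidableEq β]
    {SA : X → Y → Ω → α} {SB : X → Y → Ω → β × Bool} (h : CR X Y Ω c α (β × Bool) SA SB) :
    CR X Y Ω (c + 1) (α × Bool) β (fun x y ω => (SA x y ω, (SB x y ω).2))
      (fun x y ω => (SB x y ω).1) := by
  have h1 := Reach.sendB h
  unfold CR
  convert h1 using 1
  funext x y a b
  unfold amp
  apply Finset.sum_congr rfl
  intro ω _
  congr 1
  apply propext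
  simp only [Prod.ext_iff]
  tauto

lemma CR.start [Fintype Ω] [DecidableEq Ω] [Nonempty Ω] :
    CR X Y Ω 0 Ω Ω (fun _ _ ω => ω) (fun _ _ ω => ω) := by
  unfold CR
  have h0 : (0 : ℝ) < Fintype.card Ω := by exact_mod_cast Fintype.card_pos
  have h1 := Reach.init (X := X) (Y := Y) (α := Ω) (β := Ω)
    (fun a b => if a = b then ((Real.sqrt (Fintype.card Ω))⁻¹ : ℂ) else 0) (by
      have : ∀ a : Ω, ∑ b : Ω, ‖(if a = b then ((Real.sqrt (Fintype.card Ω))⁻¹ : ℂ) else 0)‖ ^ 2 =
          (Fintype.card Ω : ℝ)⁻¹ := by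
        intro a
        rw [Finset.sum_eq_single a]
        · rw [if_pos rfl, norm_inv, Complex.norm_real, Real.norm_eq_abs,
            abs_of_nonneg (Real.sqrt_nonneg _), inv_pow, Real.sq_sqrt h0.le]
        · intro b _ hb
          rw [if_neg (Ne.symm hb)]
          simp
        · intro h; exact absurd (Finset.mem_univ _) h
      rw [Finset.sum_congr rfl (fun a _ => this a), Finset.sum_const, nsmul_eq_mul,
        Finset.card_univ]
      exact mul_inv_cancel₀ h0.ne')
  convert h1 using 1
  funext x y a b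
  unfold amp
  rw [Finset.sum_eq_single a]
  · simp
  · intro ω _ hω
    simp [hω]
  · intro h; exact absurd (Finset.mem_univ _) h

/-- The classical protocol is simulated: both parties remember `u` and `ω`. -/
theorem exists_CR [Fintype Ω] [DecidableEq Ω] [Nonempty Ω] {c : ℕ} {κ : Type}
    {u : X → Y → Ω → κ} (h : Pub X Y Ω c κ u) :
    ∃ (α β : Type) (_ : Fintype α) (_ : Fintype β) (_ : DecidableEq α) (_ : DecidableEq β)
      (SA : X → Y → Ω → α) (SB : X → Y → Ω → β) (dA : α → κ) (dB : β → κ) (eA : α → Ω),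
      CR X Y Ω c α β SA SB ∧ (∀ x y ω, dA (SA x y ω) = u x y ω) ∧
        (∀ x y ω, dB (SB x y ω) = u x y ω) ∧ (∀ x y ω, eA (SA x y ω) = ω) := by
  induction h with
  | start =>
    exact ⟨Ω, Ω, inferInstance, inferInstance, inferInstance, inferInstance, _, _, id, id, id,
      CR.start, fun _ _ _ => rfl, fun _ _ _ => rfl, fun _ _ _ => rfl⟩
  | @alice c κ u m _ ih =>
    obtain ⟨α, β, i1, i2, i3, i4, SA, SB, dA, dB, eA, h1, h2, h3, h4⟩ := ih
    have h5 := h1.mapA (fun x a => ((a, m x (dA a)), m x (dA a))) (by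
      intro x a a' haa'
      simp only [Prod.mk.injEq] at haa'
      exact haa'.1.1)
    have h6 := h5.sendA
    refine ⟨α × Bool, β × Bool, inferInstance, inferInstance, inferInstance, inferInstance, _, _,
      fun a => (dA a.1, a.2), fun b => (dB b.1, b.2), fun a => eA a.1, h6, ?_, ?_, ?_⟩
    · intro x y ω
      simp only [h2]
    · intro x y ω
      simp only [h2, h3]
    · intro x y ω
      simp only [h4]
  | @bob c κ u m _ ih =>
    obtain ⟨α, β, i1, i2, i3, i4, SA, SB, dA, dB, eA, h1, h2, h3, h4⟩ := ih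
    have h5 := h1.mapB (fun y b => ((b, m y (dB b)), m y (dB b))) (by
      intro x a a' haa'
      simp only [Prod.mk.injEq] at haa'
      exact haa'.1.1)
    have h6 := h5.sendB
    refine ⟨α × Bool, β × Bool, inferInstance, inferInstance, inferInstance, inferInstance, _, _,
      fun a => (dA a.1, a.2), fun b => (dB b.1, b.2), fun a => eA a.1, h6, ?_, ?_, ?_⟩
    · intro x y ω
      simp only [h2, h3]
    · intro x y ω
      simp only [h3]
    · intro x y ω
      simp only [h4]
  | @map c κ κ' u g _ ih =>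
    obtain ⟨α, β, i1, i2, i3, i4, SA, SB, dA, dB, eA, h1, h2, h3, h4⟩ := ih
    exact ⟨α, β, i1, i2, i3, i4, SA, SB, fun a => g (dA a), fun b => g (dB b), eA, h1,
      fun x y ω => by simp only [h2], fun x y ω => by simp only [h3], h4⟩

/-- A public-coin classical protocol gives a quantum protocol with prior entanglement. -/
theorem QComputes_of_Pub [Fintype Ω] [DecidableEq Ω] [Nonempty Ω] {c : ℕ} {κ : Type}
    {u : X → Y → Ω → κ} (h : Pub X Y Ω c κ u) (F : X → Y → Bool) (out : κ → Bool)
    (hout : ∀ x y, (2 / 3 : ℝ) * Fintype.card Ω ≤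
      ((Finset.univ.filter (fun ω => out (u x y ω) = F x y)).card : ℝ)) :
    QComputes F c := by
  obtain ⟨α, β, i1, i2, i3, i4, SA, SB, dA, dB, eA, h1, h2, h3, h4⟩ := exists_CR h
  refine ⟨α, β, i1, i2, _, h1, fun a => out (dA a), fun b => out (dB b), ?_⟩
  intro x y
  have h0 : (0 : ℝ) < Fintype.card Ω := by exact_mod_cast Fintype.card_pos
  have hinj : ∀ ω ω', SA x y ω = SA x y ω' → ω = ω' := by
    intro ω ω' hh
    rw [← h4 x y ω, hh, h4]
  -- the value of the amplitude at a reached state
  have hamp : ∀ ω, amp SA SB x y (SA x y ω) (SB x y ω) = ((Real.sqrt (Fintype.card Ω))⁻¹ : ℂ) := by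
    intro ω
    unfold amp
    rw [Finset.sum_eq_single ω]
    · simp
    · intro ω' _ hω'
      rw [if_neg]
      rintro ⟨h5, _⟩
      exact hω' (hinj _ _ h5)
    · intro h; exact absurd (Finset.mem_univ _) h
  have hsum : (((Finset.univ.filter (fun ω => out (u x y ω) = F x y)).card : ℝ)) *
      (Fintype.card Ω : ℝ)⁻¹ ≤
      ∑ p : α × β, if out (dA p.1) = F x y ∧ out (dB p.2) = F x y then
        ‖amp SA SB x y p.1 p.2‖ ^ 2 else 0 := by
    have h6 : ∑ p ∈ (Finset.univ.filter (fun ω => out (u x y ω) = F x y)).image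
        (fun ω => (SA x y ω, SB x y ω)), (if out (dA p.1) = F x y ∧ out (dB p.2) = F x y then
        ‖amp SA SB x y p.1 p.2‖ ^ 2 else 0) =
        (((Finset.univ.filter (fun ω => out (u x y ω) = F x y)).card : ℝ)) *
      (Fintype.card Ω : ℝ)⁻¹ := by
      rw [Finset.sum_image]
      · rw [← nsmul_eq_mul, ← Finset.sum_const]
        apply Finset.sum_congr rfl
        intro ω hω
        rw [Finset.mem_filter] at hω
        rw [if_pos ⟨by simp only [h2]; exact hω.2, by simp only [h3]; exact hω.2⟩]
        simp only [hamp]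
        rw [norm_inv, Complex.norm_real, Real.norm_eq_abs,
            abs_of_nonneg (Real.sqrt_nonneg _), inv_pow, Real.sq_sqrt h0.le]
      · intro ω _ ω' _ hh
        simp only [Prod.mk.injEq] at hh
        exact hinj _ _ hh.1
    rw [← h6]
    apply Finset.sum_le_sum_of_subset_of_nonneg (Finset.subset_univ _)
    intro p _ _
    split_ifs
    · positivity
    · exact le_rfl
  rw [Fintype.sum_prod_type] at hsum
  refine le_trans ?_ hsum
  rw [le_mul_inv_iff₀ h0]
  exact hout x y

end Pool.Agent.W974.QC
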